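import Mathlib

/-!
# Regular elements without regular higher powers in pi-regular rings

We show that no such element exists: in a pi-regular ring every element (regular or not) has
regular powers of arbitrarily large exponent.
-/

namespace Pool.Agent.Results.MP_59f064_al.AllRegular

/-- `a` is (von Neumann) regular: `a = a x a` for some `x`. -/
def IsVNRegular {R : Type*} [Ring R] (a : R) : Prop := ∃ x : R, a = a * x * a

/-- `R` is pi-regular: every element has a regular power with exponent `≥ 1`. -/
def IsPiRegular (R : Type*) [Ring R] : Prop :=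
  ∀ a : R, ∃ n : ℕ, 1 ≤ n ∧ IsVNRegular (a ^ n)

theorem exists_large {R : Type*} [Ring R] (hR : IsPiRegular R) (a : R) (N : ℕ) :
    ∃ k : ℕ, N ≤ k ∧ IsVNRegular (a ^ k) := by
  obtain ⟨n, hn, hreg⟩ := hR (a ^ (N + 1))
  refine ⟨(N + 1) * n, ?_, ?_⟩
  · calc N ≤ (N + 1) * 1 := by omega
      _ ≤ (N + 1) * n := Nat.mul_le_mul_left _ hn
  · rw [pow_mul]; exact hreg

/-- There are no pi-regular ring `R` and regular element `a` of `R` such that `a ^ k` is not
regular for every `k ≥ 2`; more strongly, in a pi-regular ring every element `a` has, for every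
bound `N`, a regular power `a ^ k` with `k ≥ N`. -/
theorem result :
    (¬ ∃ (R : Type*) (_ : Ring R) (_ : IsPiRegular R) (a : R), IsVNRegular a ∧
      ∀ k : ℕ, 2 ≤ k → ¬ IsVNRegular (a ^ k)) ∧
    (∀ (R : Type*) [Ring R], IsPiRegular R → ∀ (a : R) (N : ℕ),
      ∃ k : ℕ, N ≤ k ∧ IsVNRegular (a ^ k)) := by
  refine ⟨?_, fun R _ hR a N => exists_large hR a N⟩
  rintro ⟨R, _, hR, a, -, hno⟩
  obtain ⟨k, hk, hreg⟩ := exists_large hR a 2
  exact hno k hk hreg

end Pool.Agent.Results.MP_59f064_al.AllRegular
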